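import Pool.Agent.J4H12.PZ.Stm

/-! Project PZ of helper12 (frozen statement S12949), job MU. -/

set_option autoImplicit false

open MeasureTheory Set Filter Topology Metric
open scoped Pointwise RealInnerProductSpace ENNReal

namespace Pool.Agent.J4H98.PZ

open Pool.Agent.H638.IB Pool.Agent.J4H12.PZ

theorem inner_mk3 {L : ℕ} (p t : ℝ) (v : E (L + 3)) :
    ⟪(mk 1 (mk p (mk t 0)) : E (L + 3)), v⟫ =
      v 0 + p * v (Fin.succ 0) + t * v (Fin.succ (Fin.succ 0)) := by
  rw [PiLp.inner_apply, Fin.sum_univ_succ, Fin.sum_univ_succ, Fin.sum_univ_succ]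
  simp only [mk_zero_apply, mk_succ_apply]
  have h : ∀ i : Fin L, inner ℝ ((0 : E L) i) (v (Fin.succ (Fin.succ (Fin.succ i)))) = (0 : ℝ) := by
    intro i
    simp
  rw [Finset.sum_eq_zero fun i _ => h i]
  simp only [RCLike.inner_apply, conj_trivial]
  ring

theorem even_one {r t : ℝ} (ht : 0 ≤ t) : max (t - |r|) 0 = (|r + t| + |r - t| - 2 * |r|) / 2 := by
  rcases le_total 0 r with hr | hr
  · rw [abs_of_nonneg hr, abs_of_nonneg (by linarith : 0 ≤ r + t)]
    rcases le_total t r with h | h
    · rw [max_eq_right (by linarith), abs_of_nonneg (by linarith)]; ring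
    · rw [max_eq_left (by linarith), abs_of_nonpos (by linarith)]; ring
  · rw [abs_of_nonpos hr, abs_of_nonpos (by linarith : r - t ≤ 0)]
    rcases le_total t (-r) with h | h
    · rw [max_eq_right (by linarith), abs_of_nonpos (by linarith)]; ring
    · rw [max_eq_left (by linarith), abs_of_nonneg (by linarith)]; ring

theorem odd_one {r t : ℝ} (ht : 0 ≤ t) : (SignType.sign r : ℝ) * max (t - |r|) 0 =
    (SignType.sign r : ℝ) * t - (|r + t| - |r - t|) / 2 := by
  rcases lt_trichotomy r 0 with hr | rfl | hr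
  · rw [sign_neg hr, abs_of_neg hr, abs_of_nonpos (by linarith : r - t ≤ 0), SignType.coe_neg_one]
    rcases le_total t (-r) with h | h
    · rw [max_eq_right (by linarith), abs_of_nonpos (by linarith)]; ring
    · rw [max_eq_left (by linarith), abs_of_nonneg (by linarith)]; ring
  · simp
  · rw [sign_pos hr, abs_of_pos hr, abs_of_nonneg (by linarith : 0 ≤ r + t), SignType.coe_one]
    rcases le_total t r with h | h
    · rw [max_eq_right (by linarith), abs_of_nonneg (by linarith)]; ring
    · rw [max_eq_left (by linarith), abs_of_nonpos (by linarith)]; ring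

theorem id_even {a b t : ℝ} (ht : 0 ≤ t) :
    |b| * max (t - |a / b|) 0 = (|a + t * b| + |a + -t * b| - 2 * |a|) / 2 := by
  rcases eq_or_ne b 0 with rfl | hb
  · simp only [abs_zero, zero_mul, mul_zero, add_zero]
    ring
  · obtain ⟨r, rfl⟩ : ∃ r, a = r * b := ⟨a / b, by field_simp⟩
    rw [mul_div_cancel_right₀ _ hb, even_one ht, show r * b + t * b = (r + t) * b by ring,
      show r * b + -t * b = (r - t) * b by ring, abs_mul, abs_mul, abs_mul]
    ring

theorem id_odd {a b t : ℝ} (ht : 0 ≤ t) :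
    |b| * ((SignType.sign (a / b) : ℝ) * max (t - |a / b|) 0) =
      (SignType.sign a : ℝ) * b * t - (|a + t * b| - |a + -t * b|) / 2 := by
  rcases eq_or_ne b 0 with rfl | hb
  · simp
  · obtain ⟨r, rfl⟩ : ∃ r, a = r * b := ⟨a / b, by field_simp⟩
    rw [mul_div_cancel_right₀ _ hb, odd_one ht, show r * b + t * b = (r + t) * b by ring,
      show r * b + -t * b = (r - t) * b by ring, abs_mul, abs_mul, sign_mul, SignType.coe_mul]
    have h := sign_mul_self (α := ℝ) b
    calc |b| * ((SignType.sign r : ℝ) * t - (|r + t| - |r - t|) / 2) =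
        (SignType.sign r : ℝ) * |b| * t - (|r + t| * |b| - |r - t| * |b|) / 2 := by ring
      _ = _ := by rw [← h]; ring

theorem measurable_sgn : Measurable fun x : ℝ => (SignType.sign x : ℝ) := by
  have h : (fun x : ℝ => (SignType.sign x : ℝ)) = fun x => if 0 < x then 1 else
      if x < 0 then -1 else 0 := by
    funext x
    rcases lt_trichotomy x 0 with hx | rfl | hx
    · rw [sign_neg hx, if_neg (not_lt.2 hx.le), if_pos hx]; simp
    · simp
    · rw [sign_pos hx, if_pos hx]; simp
  rw [h]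
  exact Measurable.ite measurableSet_Ioi measurable_const
    (Measurable.ite measurableSet_Iio measurable_const measurable_const)

theorem abs_sgn_le (x : ℝ) : |(SignType.sign x : ℝ)| ≤ 1 := by
  rcases lt_trichotomy x 0 with hx | rfl | hx
  · rw [sign_neg hx]; simp
  · simp
  · rw [sign_pos hx]; simp

theorem t_MU : S_MU := by
  intro L μ hμ hsp
  haveI := hμ
  have hc : ∀ i : Fin (L + 3), Continuous fun v : E (L + 3) => v i := fun i => by fun_prop
  have hm : ∀ i : Fin (L + 3), Measurable fun v : E (L + 3) => v i := fun i => (hc i).measurable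
  have hle : ∀ (i : Fin (L + 3)) (v : E (L + 3)), ‖v‖ = 1 → |v i| ≤ 1 := fun i v hv => by
    rw [← hv, ← Real.norm_eq_abs]
    exact PiLp.norm_apply_le v i
  set φ : E (L + 3) → ℝ × ℝ := fun v =>
    (v 0 / v (Fin.succ (Fin.succ 0)), v (Fin.succ 0) / v (Fin.succ (Fin.succ 0))) with hφd
  have hφ : Measurable φ := ((hm 0).div (hm (Fin.succ (Fin.succ 0)))).prodMk
    ((hm (Fin.succ 0)).div (hm (Fin.succ (Fin.succ 0))))
  have hw : Measurable fun v : E (L + 3) => |v (Fin.succ (Fin.succ 0))| := (hm _).abs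
  have hsph : ∀ᵐ v ∂μ, ‖v‖ = 1 := by
    rw [ae_iff]
    refine measure_mono_null (fun v hv => ?_) hsp
    simpa using hv
  have hint : ∀ (h : E (L + 3) → ℝ) (C : ℝ), Measurable h → (∀ v, ‖v‖ = 1 → |h v| ≤ C) →
      Integrable h μ := fun h C hh hb =>
    Integrable.of_bound hh.aestronglyMeasurable C (hsph.mono fun v hv => hb v hv)
  have hwi : Integrable (fun v : E (L + 3) => |v (Fin.succ (Fin.succ 0))|) μ :=
    hint _ 1 hw fun v hv => by rw [abs_abs]; exact hle _ v hv
  haveI hfin : IsFiniteMeasure (μ.withDensity fun v =>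
      ENNReal.ofReal |v (Fin.succ (Fin.succ 0))|) := isFiniteMeasure_withDensity_ofReal hwi.2
  have htr : ∀ g : ℝ × ℝ → ℝ, Measurable g →
      ∫ y, g y ∂((μ.withDensity fun v => ENNReal.ofReal |v (Fin.succ (Fin.succ 0))|).map φ) =
        ∫ v, |v (Fin.succ (Fin.succ 0))| * g (φ v) ∂μ := by
    intro g hg
    rw [integral_map hφ.aemeasurable hg.aestronglyMeasurable,
      integral_withDensity_eq_integral_toReal_smul hw.ennreal_ofReal
        (Eventually.of_forall fun v => ENNReal.ofReal_lt_top)]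
    refine integral_congr_ae (Eventually.of_forall fun v => ?_)
    simp only [smul_eq_mul]
    rw [ENNReal.toReal_ofReal (abs_nonneg _)]
  have hI : ∀ p s : ℝ, Integrable (fun v : E (L + 3) =>
      |v 0 + p * v (Fin.succ 0) + s * v (Fin.succ (Fin.succ 0))|) μ := by
    intro p s
    refine hint _ (1 + |p| + |s|) (((hm _).add ((hm _).const_mul p)).add
      ((hm _).const_mul s)).abs fun v hv => ?_
    rw [abs_abs]
    refine (abs_add_three _ _ _).trans ?_
    rw [abs_mul, abs_mul]
    have h0 := hle 0 v hv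
    have h1 := mul_le_mul_of_nonneg_left (hle (Fin.succ 0) v hv) (abs_nonneg p)
    have h2 := mul_le_mul_of_nonneg_left (hle (Fin.succ (Fin.succ 0)) v hv) (abs_nonneg s)
    linarith
  have hφv : ∀ (p : ℝ) (v : E (L + 3)), (φ v).1 + p * (φ v).2 =
      (v 0 + p * v (Fin.succ 0)) / v (Fin.succ (Fin.succ 0)) := by
    intro p v
    rw [hφd]
    simp only
    rw [add_div, mul_div_assoc]
  refine ⟨(μ.withDensity fun v => ENNReal.ofReal |v (Fin.succ (Fin.succ 0))|).map φ,
    Measure.isFiniteMeasure_map _ _,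
    fun p => ∫ v, (SignType.sign (v 0 + p * v (Fin.succ 0)) : ℝ) * v (Fin.succ (Fin.succ 0)) ∂μ,
    fun p t ht => ?_⟩
  simp only [inner_mk3]
  have hlin : Measurable fun y : ℝ × ℝ => y.1 + p * y.2 :=
    measurable_fst.add (measurable_snd.const_mul p)
  have hmax : Measurable fun y : ℝ × ℝ => max (t - |y.1 + p * y.2|) 0 :=
    (measurable_const.sub hlin.abs).max measurable_const
  constructor
  · have e1 : ∫ v : E (L + 3), (|v 0 + p * v (Fin.succ 0) + t * v (Fin.succ (Fin.succ 0))| +
        |v 0 + p * v (Fin.succ 0) + -t * v (Fin.succ (Fin.succ 0))| -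
        2 * |v 0 + p * v (Fin.succ 0) + 0 * v (Fin.succ (Fin.succ 0))|) / 2 ∂μ =
        ((∫ v : E (L + 3), |v 0 + p * v (Fin.succ 0) + t * v (Fin.succ (Fin.succ 0))| ∂μ) +
        (∫ v : E (L + 3), |v 0 + p * v (Fin.succ 0) + -t * v (Fin.succ (Fin.succ 0))| ∂μ) -
        2 * ∫ v : E (L + 3), |v 0 + p * v (Fin.succ 0) + 0 * v (Fin.succ (Fin.succ 0))| ∂μ) / 2 := by
      rw [integral_div, integral_sub (f := fun v : E (L + 3) =>
        |v 0 + p * v (Fin.succ 0) + t * v (Fin.succ (Fin.succ 0))| +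
        |v 0 + p * v (Fin.succ 0) + -t * v (Fin.succ (Fin.succ 0))|)
        ((hI p t).add (hI p (-t))) ((hI p 0).const_mul 2), integral_add (hI p t) (hI p (-t)),
        integral_const_mul]
    rw [htr _ hmax, ← e1]
    refine integral_congr_ae (Eventually.of_forall fun v => ?_)
    simp only
    rw [hφv, id_even ht, zero_mul, add_zero]
  · rw [htr (fun y : ℝ × ℝ => (SignType.sign (y.1 + p * y.2) : ℝ) * max (t - |y.1 + p * y.2|) 0)
      ((measurable_sgn.comp hlin).mul hmax)]
    have hS : Integrable (fun v : E (L + 3) =>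
        (SignType.sign (v 0 + p * v (Fin.succ 0)) : ℝ) * v (Fin.succ (Fin.succ 0))) μ := by
      refine hint _ 1 ((measurable_sgn.comp ((hm _).add ((hm _).const_mul p))).mul (hm _))
        fun v hv => ?_
      rw [abs_mul]
      have h1 := abs_sgn_le (v 0 + p * v (Fin.succ 0))
      have h2 := hle (Fin.succ (Fin.succ 0)) v hv
      calc _ ≤ 1 * 1 := mul_le_mul h1 h2 (abs_nonneg _) zero_le_one
        _ = 1 := one_mul 1
    have e2 : ∫ v : E (L + 3), ((SignType.sign (v 0 + p * v (Fin.succ 0)) : ℝ) *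
        v (Fin.succ (Fin.succ 0)) * t -
        (|v 0 + p * v (Fin.succ 0) + t * v (Fin.succ (Fin.succ 0))| -
        |v 0 + p * v (Fin.succ 0) + -t * v (Fin.succ (Fin.succ 0))|) / 2) ∂μ =
        (∫ v : E (L + 3), (SignType.sign (v 0 + p * v (Fin.succ 0)) : ℝ) *
          v (Fin.succ (Fin.succ 0)) ∂μ) * t -
        ((∫ v : E (L + 3), |v 0 + p * v (Fin.succ 0) + t * v (Fin.succ (Fin.succ 0))| ∂μ) -
        (∫ v : E (L + 3), |v 0 + p * v (Fin.succ 0) + -t * v (Fin.succ (Fin.succ 0))| ∂μ)) / 2 := by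
      rw [integral_sub (hS.mul_const t) (g := fun v : E (L + 3) =>
        (|v 0 + p * v (Fin.succ 0) + t * v (Fin.succ (Fin.succ 0))| -
        |v 0 + p * v (Fin.succ 0) + -t * v (Fin.succ (Fin.succ 0))|) / 2)
        (((hI p t).sub (hI p (-t))).div_const 2), integral_div,
        integral_sub (hI p t) (hI p (-t)), integral_mul_const]
    rw [← e2]
    refine integral_congr_ae (Eventually.of_forall fun v => ?_)
    simp only
    rw [hφv, id_odd ht]

end Pool.Agent.J4H98.PZ
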