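import Pool.Agent.J4H12.PZ.Stm

/-! Project PZ of helper12 (frozen statement S12949), job V2: an Abelian lemma. -/

set_option autoImplicit false

open MeasureTheory Set Filter Topology Metric
open scoped Pointwise RealInnerProductSpace ENNReal

namespace Pool.Agent.J4H98.PZ

open Pool.Agent.H638.IB Pool.Agent.J4H12.PZ

/-- the estimate -/
theorem v2_est {f : ℝ → ℝ} (hf : Measurable f) {C' d f0 e z : ℝ} (hd : 0 < d) (hd1 : d ≤ 1)
    (_hC : 0 ≤ C') (h1 : ∀ t, 0 < t → t ≤ d → |f t - f0| ≤ e)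
    (h2 : ∀ t, d < t → |f t| ≤ C' / t) (hz0 : 0 < z) (hz : z < 1) :
    |(1 - z) * (∫ t in Ioi (0 : ℝ), t ^ (-z) * f t) - f0| ≤
      e + |f0| * |d ^ (1 - z) - 1| + (1 - z) * (C' * (d ^ (-z) / z)) := by
  have he : 0 ≤ e := (abs_nonneg _).trans (h1 d hd le_rfl)
  have hm : Measurable fun t : ℝ => t ^ (-z) * f t := (measurable_id.pow_const _).mul hf
  have hi0 : IntegrableOn (fun t : ℝ => t ^ (-z)) (Ioc 0 d) :=
    (intervalIntegrable_iff_integrableOn_Ioc_of_le hd.le).1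
      (intervalIntegral.intervalIntegrable_rpow' (by linarith))
  have hi1 : IntegrableOn (fun t : ℝ => t ^ (-z) * (f t - f0)) (Ioc 0 d) := by
    refine Integrable.mono' (hi0.const_mul e)
      ((measurable_id.pow_const _).mul (hf.sub_const _)).aestronglyMeasurable ?_
    refine (ae_restrict_iff' measurableSet_Ioc).2 (Eventually.of_forall fun t ht => ?_)
    rw [Real.norm_eq_abs, abs_mul, abs_of_nonneg (Real.rpow_nonneg ht.1.le _), mul_comm]
    exact mul_le_mul_of_nonneg_right (h1 t ht.1 ht.2) (Real.rpow_nonneg ht.1.le _)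
  have hi2 : IntegrableOn (fun t : ℝ => t ^ (-z) * f t) (Ioc 0 d) := by
    have : IntegrableOn (fun t : ℝ => t ^ (-z) * (f t - f0) + t ^ (-z) * f0) (Ioc 0 d) :=
      hi1.add (hi0.mul_const f0)
    refine this.congr_fun (fun t _ => ?_) measurableSet_Ioc
    ring
  have hi3 : IntegrableOn (fun t : ℝ => t ^ (-z - 1)) (Ioi d) :=
    integrableOn_Ioi_rpow_of_lt (by linarith) hd
  have hb : ∀ t ∈ Ioi d, ‖t ^ (-z) * f t‖ ≤ C' * t ^ (-z - 1) := by
    intro t ht
    have ht' : 0 < t := hd.trans ht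
    rw [Real.norm_eq_abs, abs_mul, abs_of_nonneg (Real.rpow_nonneg ht'.le _),
      Real.rpow_sub_one ht'.ne', mul_div_assoc', mul_comm C', mul_div_assoc]
    exact mul_le_mul_of_nonneg_left (h2 t ht) (Real.rpow_nonneg ht'.le _)
  have hi4 : IntegrableOn (fun t : ℝ => t ^ (-z) * f t) (Ioi d) := by
    refine Integrable.mono' (hi3.const_mul C') hm.aestronglyMeasurable ?_
    exact (ae_restrict_iff' measurableSet_Ioi).2 (Eventually.of_forall hb)
  have hsplit : (∫ t in Ioi (0 : ℝ), t ^ (-z) * f t) =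
      (∫ t in Ioc 0 d, t ^ (-z) * (f t - f0)) + (∫ t in Ioc 0 d, t ^ (-z)) * f0 +
        ∫ t in Ioi d, t ^ (-z) * f t := by
    rw [← Ioc_union_Ioi_eq_Ioi hd.le, setIntegral_union (Ioc_disjoint_Ioi le_rfl) measurableSet_Ioi
      hi2 hi4]
    congr 1
    rw [← integral_mul_const, ← integral_add hi1 (hi0.mul_const f0)]
    refine setIntegral_congr_fun measurableSet_Ioc fun t _ => ?_
    ring
  have hv0 : (∫ t in Ioc 0 d, t ^ (-z)) = d ^ (1 - z) / (1 - z) := by
    rw [← intervalIntegral.integral_of_le hd.le, integral_rpow (Or.inl (by linarith)),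
      Real.zero_rpow (by linarith)]
    rw [sub_zero, show -z + 1 = 1 - z by ring]
  have hv3 : (∫ t in Ioi d, t ^ (-z - 1)) = d ^ (-z) / z := by
    rw [integral_Ioi_rpow_of_lt (by linarith) hd, show -z - 1 + 1 = -z by ring, neg_div_neg_eq]
  have hA : |∫ t in Ioc 0 d, t ^ (-z) * (f t - f0)| ≤ e * (d ^ (1 - z) / (1 - z)) := by
    rw [← Real.norm_eq_abs, ← hv0, ← integral_const_mul]
    refine norm_integral_le_of_norm_le (hi0.const_mul e) ?_
    refine (ae_restrict_iff' measurableSet_Ioc).2 (Eventually.of_forall fun t ht => ?_)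
    rw [Real.norm_eq_abs, abs_mul, abs_of_nonneg (Real.rpow_nonneg ht.1.le _), mul_comm]
    exact mul_le_mul_of_nonneg_right (h1 t ht.1 ht.2) (Real.rpow_nonneg ht.1.le _)
  have hB : |∫ t in Ioi d, t ^ (-z) * f t| ≤ C' * (d ^ (-z) / z) := by
    rw [← Real.norm_eq_abs, ← hv3, ← integral_const_mul]
    exact norm_integral_le_of_norm_le (hi3.const_mul C')
      ((ae_restrict_iff' measurableSet_Ioi).2 (Eventually.of_forall hb))
  have hz1 : 0 < 1 - z := by linarith
  have hdz : d ^ (1 - z) ≤ 1 := Real.rpow_le_one hd.le hd1 hz1.le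
  have hdz0 : 0 ≤ d ^ (1 - z) := Real.rpow_nonneg hd.le _
  rw [hsplit, hv0]
  have e1 : (1 - z) * ((∫ t in Ioc 0 d, t ^ (-z) * (f t - f0)) + d ^ (1 - z) / (1 - z) * f0 +
      ∫ t in Ioi d, t ^ (-z) * f t) - f0 =
      (1 - z) * (∫ t in Ioc 0 d, t ^ (-z) * (f t - f0)) + f0 * (d ^ (1 - z) - 1) +
        (1 - z) * ∫ t in Ioi d, t ^ (-z) * f t := by
    field_simp
    ring
  rw [e1]
  refine (abs_add_le _ _).trans (add_le_add ((abs_add_le _ _).trans (add_le_add ?_ ?_)) ?_)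
  · rw [abs_mul, abs_of_pos hz1]
    calc (1 - z) * |∫ t in Ioc 0 d, t ^ (-z) * (f t - f0)|
        ≤ (1 - z) * (e * (d ^ (1 - z) / (1 - z))) := mul_le_mul_of_nonneg_left hA hz1.le
      _ = e * d ^ (1 - z) := by field_simp
      _ ≤ e * 1 := mul_le_mul_of_nonneg_left hdz he
      _ = e := mul_one e
  · rw [abs_mul]
  · rw [abs_mul, abs_of_pos hz1]
    exact mul_le_mul_of_nonneg_left hB hz1.le

theorem t_V2 : S_V2 := by
  intro f C δ f0 hf hδ h1 h2 hlim
  rw [Metric.tendsto_nhds]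
  intro ε hε
  have hC : 0 ≤ C := (abs_nonneg _).trans (h1 δ hδ le_rfl)
  -- the neighbourhood
  have hev : ∀ᶠ t in 𝓝[>] (0 : ℝ), |f t - f0| < ε / 2 := by
    have := (Metric.tendsto_nhds.1 hlim) (ε / 2) (by positivity)
    simpa only [Real.dist_eq] using this
  obtain ⟨d0, hd0, hd0'⟩ := mem_nhdsGT_iff_exists_Ioc_subset.1 hev
  have hd0'' : (0 : ℝ) < d0 := hd0
  set d : ℝ := min (min d0 δ) 1 with hd
  have hdpos : 0 < d := lt_min (lt_min hd0'' hδ) one_pos
  have hdd0 : d ≤ d0 := (min_le_left _ _).trans (min_le_left _ _)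
  have hd1 : d ≤ 1 := min_le_right _ _
  have g1 : ∀ t, 0 < t → t ≤ d → |f t - f0| ≤ ε / 2 := by
    intro t ht htd
    have : t ∈ Ioc (0 : ℝ) d0 := ⟨ht, htd.trans hdd0⟩
    exact (hd0' this).le
  have g2 : ∀ t, d < t → |f t| ≤ C * (1 + δ) / t := by
    intro t ht
    have ht0 : 0 < t := hdpos.trans ht
    rw [le_div_iff₀ ht0]
    by_cases htδ : t ≤ δ
    · have := h1 t ht0 htδ
      calc |f t| * t ≤ C * δ := mul_le_mul this htδ ht0.le hC
        _ ≤ C * (1 + δ) := mul_le_mul_of_nonneg_left (by linarith) hC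
    · have := h2 t (not_le.1 htδ).le
      rw [le_div_iff₀ ht0] at this
      refine this.trans ?_
      nlinarith
  have hlim2 : Tendsto (fun z : ℝ => ε / 2 + |f0| * |d ^ (1 - z) - 1| +
      (1 - z) * (C * (1 + δ) * (d ^ (-z) / z))) (𝓝[<] 1) (𝓝 (ε / 2)) := by
    have hc : ContinuousAt (fun z : ℝ => ε / 2 + |f0| * |d ^ (1 - z) - 1| +
        (1 - z) * (C * (1 + δ) * (d ^ (-z) / z))) 1 := by
      have c1 : ContinuousAt (fun z : ℝ => d ^ (1 - z)) 1 :=
        ContinuousAt.rpow continuousAt_const (by fun_prop) (Or.inl hdpos.ne')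
      have c2 : ContinuousAt (fun z : ℝ => d ^ (-z)) 1 :=
        ContinuousAt.rpow continuousAt_const (by fun_prop) (Or.inl hdpos.ne')
      have c3 : ContinuousAt (fun z : ℝ => d ^ (-z) / z) 1 := c2.div continuousAt_id one_ne_zero
      exact (continuousAt_const.add (continuousAt_const.mul (c1.sub continuousAt_const).abs)).add
        ((continuousAt_const.sub continuousAt_id).mul (continuousAt_const.mul c3))
    have h0 : ε / 2 + |f0| * |d ^ (1 - (1 : ℝ)) - 1| +
        (1 - (1 : ℝ)) * (C * (1 + δ) * (d ^ (-(1 : ℝ)) / 1)) = ε / 2 := by simp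
    have := hc.tendsto
    rw [h0] at this
    exact this.mono_left nhdsWithin_le_nhds
  have hev2 := hlim2.eventually (gt_mem_nhds (show ε / 2 < ε by linarith))
  have hev3 : ∀ᶠ z : ℝ in 𝓝[<] 1, 0 < z ∧ z < 1 := by
    refine (Filter.Eventually.and ?_ self_mem_nhdsWithin)
    exact mem_nhdsWithin_of_mem_nhds (lt_mem_nhds one_pos)
  filter_upwards [hev2, hev3] with z hz1 hz2
  rw [Real.dist_eq]
  refine lt_of_le_of_lt (v2_est hf hdpos hd1 (by positivity) g1 g2 hz2.1 hz2.2) hz1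

end Pool.Agent.J4H98.PZ
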